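import Pool.Agent.V11227.OP3

/-!
# Recognising graphs whose maximal open packings all have the same size is coNP-hard

The decision problem has as input a finite simple graph, given by an adjacency matrix
`M : List (List Bool)`; `matGraph M` is the graph.  The question is whether all maximal open
packings of the graph have the same number of vertices.

Reduction from the complement of 3SAT.  The graph is bipartite.  On one side there are the
literals, a vertex `q i` for every variable, a vertex `c j` for every clause and a vertex `z`; on
the other side there are vertices `b i`, `b' i` for the variables, a vertex `K` and a vertex
`e j t` for the `t`-th literal of the `j`-th clause.  Here `b i` is adjacent to `q i` and to the two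
literals of the variable `i`, `b' i` is adjacent to `q i`, `K` is adjacent to `z` and all `c j`,
and `e j t` is adjacent to `z`, to `c j` and to the `t`-th literal of the `j`-th clause.
-/

namespace Pool.Agent.Results.MP_563097_lc.SameSizeCoNPHard

open Pool.Agent.NPC Pool.Agent.H622R2 Pool.Agent.V11227.OP

/-- Recognising graphs whose maximal open packings all have the same size is `coNP`-hard under
polynomial-time many-one reductions. -/
theorem result : CoNPHardP (fun M : List (List Bool) => AllMaximalSameSize (matGraph M)) :=
  hardI.toCoNPHardP

end Pool.Agent.Results.MP_563097_lc.SameSizeCoNPHard
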